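import Mathlib

/-!
A quantitative form of Kronecker's theorem for integer matrices: if all eigenvalues `z` of an
`m × m` integer matrix satisfy `|z| ^ (16 m²) < 2`, then every eigenvalue is `0` or a root of
unity.
-/

open Polynomial Matrix

namespace Pool.Agent.Helper10.Gap

theorem norm_trace_le {m : ℕ} (M : Matrix (Fin m) (Fin m) ℂ) {r : ℝ} (hr : 0 ≤ r)
    (h : ∀ z ∈ spectrum ℂ M, ‖z‖ ≤ r) : ‖M.trace‖ ≤ m * r := by
  rw [Matrix.trace_eq_sum_roots_charpoly]
  have hc : M.charpoly.roots.card ≤ m := by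
    have := Polynomial.card_roots' M.charpoly
    rwa [Matrix.charpoly_natDegree_eq_dim, Fintype.card_fin] at this
  have h2 : ∀ z ∈ M.charpoly.roots, ‖z‖ ≤ r := fun z hz =>
    h z (by rw [Matrix.mem_spectrum_iff_isRoot_charpoly]; exact (Polynomial.mem_roots'.1 hz).2)
  have h3 : ∀ s : Multiset ℂ, (∀ z ∈ s, ‖z‖ ≤ r) → ‖s.sum‖ ≤ s.card * r := by
    intro s
    induction s using Multiset.induction_on with
    | empty => intro _; simp
    | cons a s ih =>
      intro hs
      rw [Multiset.sum_cons, Multiset.card_cons]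
      have h4 := ih (fun z hz => hs z (Multiset.mem_cons_of_mem hz))
      have h5 := hs a (Multiset.mem_cons_self a s)
      push_cast
      have := norm_add_le a s.sum
      linarith
  refine (h3 _ h2).trans ?_
  exact mul_le_mul_of_nonneg_right (by exact_mod_cast hc) hr

theorem trace_eq_zero_of_spectrum {m : ℕ} (M : Matrix (Fin m) (Fin m) ℂ)
    (h : ∀ z ∈ spectrum ℂ M, z = 0) : M.trace = 0 := by
  have := norm_trace_le M (r := 0) le_rfl (fun z hz => by rw [h z hz]; simp)
  simpa using this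

theorem trace_ne_zero_of_spectrum {m : ℕ} (M : Matrix (Fin m) (Fin m) ℂ)
    (h : ∀ z ∈ spectrum ℂ M, z = 0 ∨ z = 1) (h1 : (1 : ℂ) ∈ spectrum ℂ M) : M.trace ≠ 0 := by
  rw [Matrix.trace_eq_sum_roots_charpoly]
  have h2 : ∀ z ∈ M.charpoly.roots, z = 0 ∨ z = 1 := fun z hz =>
    h z (by rw [Matrix.mem_spectrum_iff_isRoot_charpoly]; exact (Polynomial.mem_roots'.1 hz).2)
  have h3 : ∀ s : Multiset ℂ, (∀ z ∈ s, z = 0 ∨ z = 1) → s.sum = s.count 1 := by
    intro s
    induction s using Multiset.induction_on with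
    | empty => intro _; simp
    | cons a s ih =>
      intro hs
      rw [Multiset.sum_cons, ih (fun z hz => hs z (Multiset.mem_cons_of_mem hz))]
      rcases hs a (Multiset.mem_cons_self a s) with rfl | rfl
      · rw [Multiset.count_cons_of_ne (by norm_num), zero_add]
      · rw [Multiset.count_cons_self]; push_cast; ring
  rw [h3 _ h2]
  have h4 : (1 : ℂ) ∈ M.charpoly.roots := by
    rw [Polynomial.mem_roots (Matrix.charpoly_monic M).ne_zero,
      ← Matrix.mem_spectrum_iff_isRoot_charpoly]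
    exact h1
  have := Multiset.count_pos.2 h4
  exact_mod_cast this.ne'

theorem trace_pow_prime_dvd {m p : ℕ} (hp : p.Prime) (P : Matrix (Fin m) (Fin m) ℤ) :
    (p : ℤ) ∣ (P ^ p).trace - P.trace := by
  have : Fact p.Prime := ⟨hp⟩
  rw [← ZMod.intCast_zmod_eq_zero_iff_dvd]
  push_cast
  have h1 : ∀ A : Matrix (Fin m) (Fin m) ℤ,
      ((A.trace : ℤ) : ZMod p) = (A.map (Int.castRingHom (ZMod p))).trace := by
    intro A
    simp [Matrix.trace]
  rw [h1, h1, Matrix.map_pow, ZMod.trace_pow_card, ZMod.pow_card, sub_self]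

/-- **Quantitative Kronecker theorem.** -/
theorem kronecker_quant {m : ℕ} (P : Matrix (Fin m) (Fin m) ℤ)
    (h : ∀ z ∈ spectrum ℂ (P.map (Int.castRingHom ℂ)), ‖z‖ ^ (16 * m ^ 2) < 2) :
    ∀ z ∈ spectrum ℂ (P.map (Int.castRingHom ℂ)), z = 0 ∨ ∃ n, 1 ≤ n ∧ z ^ n = 1 := by
  classical
  rcases Nat.eq_zero_or_pos m with rfl | hm
  · intro z hz
    exfalso
    rw [Matrix.mem_spectrum_iff_isRoot_charpoly] at hz
    have : (P.map (Int.castRingHom ℂ)).charpoly = 1 := by
      simp [Matrix.charpoly]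
    rw [this] at hz
    simp at hz
  set M := P.map (Int.castRingHom ℂ) with hM
  obtain ⟨p, hp, hp1, hp2⟩ := Nat.exists_prime_lt_and_le_two_mul (4 * m) (by omega)
  -- bound for the eigenvalues of small powers
  have hpow : ∀ z ∈ spectrum ℂ M, ∀ k, k ≤ 16 * m ^ 2 → ‖z‖ ^ k < 2 := by
    intro z hz k hk
    rcases le_or_gt ‖z‖ 1 with h1 | h1
    · exact lt_of_le_of_lt (pow_le_one₀ (norm_nonneg z) h1) (by norm_num)
    · exact lt_of_le_of_lt (pow_le_pow_right₀ h1.le hk) (h z hz)
  have hspecpow : ∀ k, k ≤ 16 * m ^ 2 → 0 < k → ∀ z ∈ spectrum ℂ (M ^ k), ‖z‖ ≤ 2 := by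
    intro k hk hk0 z hz
    rw [spectrum.map_pow_of_pos M hk0] at hz
    obtain ⟨w, hw, rfl⟩ := hz
    simp only [norm_pow]
    exact (hpow w hw k hk).le
  have htrace : ∀ k, ((P ^ k).trace : ℂ) = (M ^ k).trace := by
    intro k
    rw [hM, ← Matrix.map_pow]
    simp [Matrix.trace]
  have htr : ∀ k, k < 2 * m → (M ^ (p * k)).trace = (M ^ k).trace := by
    intro k hk
    rcases Nat.eq_zero_or_pos k with rfl | hk0
    · simp
    have hb1 : k ≤ 16 * m ^ 2 := by nlinarith
    have hb2 : p * k ≤ 16 * m ^ 2 := by nlinarith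
    have hpk : 0 < p * k := Nat.mul_pos hp.pos hk0
    have hdvd : (p : ℤ) ∣ (P ^ (p * k)).trace - (P ^ k).trace := by
      have := trace_pow_prime_dvd hp (P ^ k)
      rwa [← pow_mul, mul_comm k p] at this
    have hlt : ‖(((P ^ (p * k)).trace - (P ^ k).trace : ℤ) : ℂ)‖ < p := by
      push_cast
      rw [htrace, htrace]
      have e1 := norm_trace_le (M ^ (p * k)) (r := 2) (by norm_num) (hspecpow _ hb2 hpk)
      have e2 := norm_trace_le (M ^ k) (r := 2) (by norm_num) (hspecpow _ hb1 hk0)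
      have e3 := norm_sub_le (M ^ (p * k)).trace (M ^ k).trace
      have e4 : (4 * m : ℝ) < p := by exact_mod_cast hp1
      linarith
    have hzero : (P ^ (p * k)).trace - (P ^ k).trace = 0 := by
      refine Int.eq_zero_of_abs_lt_dvd hdvd ?_
      rw [Complex.norm_intCast] at hlt
      exact_mod_cast hlt
    rw [← htrace, ← htrace]
    have : (P ^ (p * k)).trace = (P ^ k).trace := by omega
    rw [this]
  -- traces of polynomials
  have htrQ : ∀ Q : ℂ[X], Q.natDegree < 2 * m →
      (aeval (M ^ p) Q).trace = (aeval M Q).trace := by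
    intro Q hQ
    rw [aeval_eq_sum_range' hQ, aeval_eq_sum_range' hQ, Matrix.trace_sum, Matrix.trace_sum]
    refine Finset.sum_congr rfl ?_
    intro i hi
    rw [Matrix.trace_smul, Matrix.trace_smul, ← pow_mul, htr i (Finset.mem_range.1 hi)]
  set S : Finset ℂ := M.charpoly.roots.toFinset with hS
  have hSmem : ∀ z, z ∈ S ↔ z ∈ spectrum ℂ M := by
    intro z
    rw [hS, Multiset.mem_toFinset, Polynomial.mem_roots (Matrix.charpoly_monic M).ne_zero,
      ← Matrix.mem_spectrum_iff_isRoot_charpoly]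
  have hScard : S.card ≤ m := by
    refine (Multiset.toFinset_card_le _).trans ?_
    have := Polynomial.card_roots' M.charpoly
    rwa [Matrix.charpoly_natDegree_eq_dim, Fintype.card_fin] at this
  -- the spectrum is closed under `z ↦ z ^ p`
  have hclosed : ∀ z ∈ S, z ^ p ∈ S := by
    intro z hz
    by_contra hnot
    set T : Finset ℂ := S ∪ S.image (fun w => w ^ p) with hT
    have hTcard : T.card ≤ 2 * m := by
      refine (Finset.card_union_le _ _).trans ?_
      have := Finset.card_image_le (s := S) (f := fun w : ℂ => w ^ p)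
      omega
    have hzT : z ^ p ∈ T := Finset.mem_union_right _ (Finset.mem_image_of_mem _ hz)
    have hinj : Set.InjOn (id : ℂ → ℂ) (T : Set ℂ) := Function.injective_id.injOn
    set Q : ℂ[X] := Lagrange.basis T id (z ^ p) with hQ
    have hQdeg : Q.natDegree < 2 * m := by
      rw [hQ, Lagrange.natDegree_basis hinj hzT]
      have : 0 < T.card := Finset.card_pos.2 ⟨_, hzT⟩
      omega
    have hQ1 : Q.eval (z ^ p) = 1 := Lagrange.eval_basis_self hinj hzT
    have hQ0 : ∀ w ∈ T, w ≠ z ^ p → Q.eval w = 0 := by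
      intro w hw hne
      exact Lagrange.eval_basis_of_ne (v := id) (Ne.symm hne) hw
    have : Nonempty (Fin m) := ⟨⟨0, hm⟩⟩
    have hne : (spectrum ℂ M).Nonempty :=
      spectrum.nonempty_of_isAlgClosed_of_finiteDimensional ℂ M
    have hnep : (spectrum ℂ (M ^ p)).Nonempty :=
      spectrum.nonempty_of_isAlgClosed_of_finiteDimensional ℂ (M ^ p)
    have hA : (aeval M Q).trace = 0 := by
      apply trace_eq_zero_of_spectrum
      intro x hx
      rw [spectrum.map_polynomial_aeval_of_nonempty M Q hne] at hx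
      obtain ⟨w, hw, rfl⟩ := hx
      have hwS : w ∈ S := (hSmem w).2 hw
      exact hQ0 w (Finset.mem_union_left _ hwS) (fun hwz => hnot (hwz ▸ hwS))
    have hB : (aeval (M ^ p) Q).trace ≠ 0 := by
      apply trace_ne_zero_of_spectrum
      · intro x hx
        rw [spectrum.map_polynomial_aeval_of_nonempty (M ^ p) Q hnep] at hx
        obtain ⟨w, hw, rfl⟩ := hx
        rw [spectrum.map_pow_of_pos M hp.pos] at hw
        obtain ⟨v, hv, rfl⟩ := hw
        have hvT : v ^ p ∈ T :=
          Finset.mem_union_right _ (Finset.mem_image_of_mem _ ((hSmem v).2 hv))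
        by_cases hvz : v ^ p = z ^ p
        · right; simp only [hvz, hQ1]
        · left; exact hQ0 _ hvT hvz
      · rw [spectrum.map_polynomial_aeval_of_nonempty (M ^ p) Q hnep]
        refine ⟨z ^ p, ?_, hQ1⟩
        rw [spectrum.map_pow_of_pos M hp.pos]
        exact ⟨z, (hSmem z).1 hz, rfl⟩
    exact hB ((htrQ Q hQdeg).trans hA)
  -- conclusion
  intro z hz
  rw [← hSmem] at hz
  have hiter : ∀ i : ℕ, z ^ (p ^ i) ∈ S := by
    intro i
    induction i with
    | zero => simpa using hz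
    | succ i ih => rw [pow_succ, pow_mul]; exact hclosed _ ih
  obtain ⟨i, j, hij, heq⟩ : ∃ i j : ℕ, i < j ∧ z ^ (p ^ i) = z ^ (p ^ j) := by
    have : ¬ Function.Injective (fun i : ℕ => (⟨z ^ (p ^ i), hiter i⟩ : S)) := by
      intro hinj
      exact not_injective_infinite_finite _ hinj
    rw [Function.not_injective_iff] at this
    obtain ⟨a, b, hab, hne⟩ := this
    have hab' : z ^ (p ^ a) = z ^ (p ^ b) := by simpa using hab
    rcases lt_or_gt_of_ne hne with hlt | hlt
    · exact ⟨a, b, hlt, hab'⟩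
    · exact ⟨b, a, hlt, hab'.symm⟩
  by_cases hz0 : z = 0
  · exact Or.inl hz0
  right
  have hlt : p ^ i < p ^ j := Nat.pow_lt_pow_right hp.one_lt hij
  refine ⟨p ^ j - p ^ i, by omega, ?_⟩
  have hne : z ^ (p ^ i) ≠ 0 := pow_ne_zero _ hz0
  have : z ^ (p ^ j - p ^ i) * z ^ (p ^ i) = 1 * z ^ (p ^ i) := by
    rw [← pow_add, Nat.sub_add_cancel hlt.le, one_mul, heq]
  exact mul_right_cancel₀ hne this

end Pool.Agent.Helper10.Gap
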